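import Pool.Agent.Helper11.PP.Inf

set_option autoImplicit false

/-!
# Module I4 of MP_505789_lc: labels exist
-/

namespace Pool.Agent.Helper22.PP

open Cardinal Filter Set
open Pool.Agent.H32.PP (MAsc CI)
open Pool.Agent.Helper11.PP

theorem two_pow_gt (q : ℕ) (hq : 5 ≤ q) : 2 * q + 2 < 2 ^ (q - 1) := by
  induction q, hq using Nat.le_induction with
  | base => norm_num
  | succ q hq ih =>
    have h1 : q + 1 - 1 = (q - 1) + 1 := by omega
    rw [h1, pow_succ]
    omega

/-- A fresh label in a residue class. -/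
theorem fresh (K : Finset ℕ) (m r L : ℕ) (hK : K.card ≤ m) (hm : 10 ≤ m) (hr : 2 * r ≤ m)
    (hL : L < 2 ^ r) : ∃ l, l < 2 ^ (m - 1) ∧ l ∉ K ∧ l % 2 ^ r = L := by
  classical
  have hcard : m < 2 ^ (m - 1 - r) := by
    have h1 : m / 2 - 1 ≤ m - 1 - r := by omega
    have h2 := two_pow_gt (m / 2) (by omega)
    have h3 : (2 : ℕ) ^ (m / 2 - 1) ≤ 2 ^ (m - 1 - r) := Nat.pow_le_pow_right (by norm_num) h1
    omega
  let f : ℕ → ℕ := fun j => L + 2 ^ r * j
  have hpos : 0 < 2 ^ r := by positivity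
  have hinj : Function.Injective f := by
    intro j j' h
    have : 2 ^ r * j = 2 ^ r * j' := by simpa [f] using h
    exact Nat.eq_of_mul_eq_mul_left hpos this
  have hc : ((Finset.range (2 ^ (m - 1 - r))).image f).card = 2 ^ (m - 1 - r) := by
    rw [Finset.card_image_of_injective _ hinj, Finset.card_range]
  obtain ⟨l, hl, hlK⟩ : ∃ l ∈ (Finset.range (2 ^ (m - 1 - r))).image f, l ∉ K := by
    by_contra hcon
    push Not at hcon
    have := Finset.card_le_card (show (Finset.range (2 ^ (m - 1 - r))).image f ⊆ K from hcon)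
    omega
  rw [Finset.mem_image] at hl
  obtain ⟨j, hj, rfl⟩ := hl
  rw [Finset.mem_range] at hj
  refine ⟨f j, ?_, hlK, ?_⟩
  · have h1 : f j < 2 ^ r * (j + 1) := by
      simp only [f]; rw [mul_add]; omega
    have h2 : 2 ^ r * (j + 1) ≤ 2 ^ r * 2 ^ (m - 1 - r) := Nat.mul_le_mul_left _ hj
    rw [← pow_add] at h2
    have h3 : r + (m - 1 - r) = m - 1 := by omega
    rw [h3] at h2
    omega
  · simp only [f]
    rw [Nat.add_mul_mod_self_left]
    exact Nat.mod_eq_of_lt hL

section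
variable (U : Ultrafilter ℕ) {X : Type} (ν : CI → X → CI) (i : CI → ℕ → ℕ)

/-- The conditions on the value at `(δ, a)`. -/
def Cond (δ : CI) (g : (γ : CI) → γ < δ → CI → ℕ → Finset ℕ × ℕ) (a : CI)
    (f : (b : CI) → b < a → ℕ → Finset ℕ × ℕ) (v : ℕ → Finset ℕ × ℕ) : Prop :=
  (∀ᶠ n in (U : Filter ℕ), (v n).2 < 2 ^ (i δ n - 1)) ∧
  (∀ k, ∀ᶠ n in (U : Filter ℕ), (v n).1.card + k ≤ i δ n) ∧
  (∀ b (h : b < a), ∀ᶠ n in (U : Filter ℕ), (f b h n).1 ⊆ (v n).1 ∧ (f b h n).2 ∈ (v n).1) ∧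
  (∀ᶠ n in (U : Filter ℕ), (v n).2 ∉ (v n).1) ∧
  (∀ γ (h : γ < δ) x, ν δ x = a →
    ∀ᶠ n in (U : Filter ℕ), (v n).2 % 2 ^ (i γ n) = (g γ h (ν γ x) n).2)

theorem inner (hU : GoodUF U) (hCoh : Coh ν) (hgr : Growth U i) (δ : CI)
    (g : CI → CI → ℕ → Finset ℕ × ℕ)
    (hg : ∀ γ, γ < δ → ∀ a, Cond U ν i γ (fun c _ => g c) a (fun b _ => g γ b) (g γ a))
    (a : CI) (f : CI → ℕ → Finset ℕ × ℕ)
    (hf : ∀ b, b < a → Cond U ν i δ (fun c _ => g c) b (fun c _ => f c) (f b)) :
    ∃ v, Cond U ν i δ (fun c _ => g c) a (fun c _ => f c) v := by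
  classical
  -- the index type
  let I : Type := Option (ℕ ⊕ (Set.Iio a ⊕ Set.Iio δ))
  have hI : #I < 𝔠 := by
    have h1 : #I = (ℵ₀ + (#(Set.Iio a) + #(Set.Iio δ))) + 1 := by
      simp only [I, Cardinal.mk_option, Cardinal.mk_sum, Cardinal.lift_id, Cardinal.mk_nat]
    rw [h1]
    have hc := Cardinal.aleph0_le_continuum
    exact Cardinal.add_lt_of_lt hc (Cardinal.add_lt_of_lt hc Cardinal.aleph0_lt_continuum
      (Cardinal.add_lt_of_lt hc (Pool.Agent.H32.PP.mk_Iio_CI a) (Pool.Agent.H32.PP.mk_Iio_CI δ)))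
      (by simpa using Cardinal.nat_lt_continuum 1)
  let P : I → ℕ → (Finset ℕ × ℕ) → Prop := fun j n v =>
    match j with
    | none => v.2 < 2 ^ (i δ n - 1) ∧ v.2 ∉ v.1
    | some (Sum.inl k) => v.1.card + k ≤ i δ n
    | some (Sum.inr (Sum.inl b)) => (f b n).1 ⊆ v.1 ∧ (f b n).2 ∈ v.1
    | some (Sum.inr (Sum.inr γ)) => ∀ hx : ∃ x, ν δ x = a,
        v.2 % 2 ^ (i γ n) = (g γ (ν γ hx.choose) n).2
  obtain ⟨v, hv⟩ := hU.sat (Finset ℕ × ℕ) I P hI (by
    intro F
    let Sk : Finset ℕ := F.preimage (fun k => (some (Sum.inl k) : I)) (by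
      intro x _ y _ h; exact Sum.inl.inj (Option.some.inj h))
    let Sb : Finset (Set.Iio a) := F.preimage (fun b => (some (Sum.inr (Sum.inl b)) : I)) (by
      intro x _ y _ h; exact Sum.inl.inj (Sum.inr.inj (Option.some.inj h)))
    let Sg : Finset (Set.Iio δ) := F.preimage (fun γ => (some (Sum.inr (Sum.inr γ)) : I)) (by
      intro x _ y _ h; exact Sum.inr.inj (Sum.inr.inj (Option.some.inj h)))
    let k0 : ℕ := Sk.sup id
    -- the set K
    have hA : ∀ᶠ n in (U : Filter ℕ), ∃ K : Finset ℕ, K.card + k0 ≤ i δ n ∧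
        ∀ b ∈ Sb, (f b n).1 ⊆ K ∧ (f b n).2 ∈ K := by
      by_cases hSb : Sb.Nonempty
      · obtain ⟨m, hm, hmax⟩ := Sb.exists_max_image id hSb
        have h1 := (hf m m.2).2.1 (k0 + 1)
        have h2 : ∀ᶠ n in (U : Filter ℕ), ∀ b ∈ Sb, (b : CI) < m →
            (f b n).1 ⊆ (f m n).1 ∧ (f b n).2 ∈ (f m n).1 := by
          rw [Filter.eventually_all_finset]
          intro b _
          by_cases hbm : (b : CI) < m
          · filter_upwards [(hf m m.2).2.2.1 b hbm] with n hn _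
            exact hn
          · exact Filter.Eventually.of_forall fun n h => absurd h hbm
        filter_upwards [h1, h2] with n hn1 hn2
        refine ⟨insert (f m n).2 (f m n).1, ?_, ?_⟩
        · have := Finset.card_insert_le (f m n).2 (f m n).1
          omega
        · intro b hb
          rcases lt_or_eq_of_le (hmax b hb) with hlt | heq
          · have := hn2 b hb hlt
            exact ⟨this.1.trans (Finset.subset_insert _ _), Finset.mem_insert_of_mem this.2⟩
          · have : b = m := heq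
            rw [this]
            exact ⟨Finset.subset_insert _ _, Finset.mem_insert_self _ _⟩
      · rw [Finset.not_nonempty_iff_eq_empty] at hSb
        filter_upwards [hgr.large δ k0] with n hn
        exact ⟨∅, by simpa using hn, by rw [hSb]; simp⟩
    -- the residue
    have hB : ∀ᶠ n in (U : Filter ℕ), ∃ r L : ℕ, 2 * r ≤ i δ n ∧ L < 2 ^ r ∧
        ∀ γ ∈ Sg, ∀ l : ℕ, l % 2 ^ r = L → ∀ hx : ∃ x, ν δ x = a,
          l % 2 ^ (i γ n) = (g γ (ν γ hx.choose) n).2 := by
      by_cases hx : ∃ x, ν δ x = a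
      · by_cases hSg : Sg.Nonempty
        · obtain ⟨m, hm, hmax⟩ := Sg.exists_max_image id hSg
          have h0 := hgr.dbl m δ m.2
          have h1 := (hg m m.2 (ν m hx.choose)).1
          have h2 : ∀ᶠ n in (U : Filter ℕ), ∀ γ ∈ Sg, (γ : CI) < m →
              (g m (ν m hx.choose) n).2 % 2 ^ (i γ n) = (g γ (ν γ hx.choose) n).2 ∧
                2 * i γ n ≤ i m n := by
            rw [Filter.eventually_all_finset]
            intro γ _
            by_cases hγm : (γ : CI) < m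
            · filter_upwards [(hg m m.2 (ν m hx.choose)).2.2.2.2 γ hγm hx.choose rfl,
                hgr.dbl γ m hγm] with n hn hn' _
              exact ⟨hn, hn'⟩
            · exact Filter.Eventually.of_forall fun n h => absurd h hγm
          filter_upwards [h0, h1, h2] with n hn0 hn1 hn2
          refine ⟨i m n, (g m (ν m hx.choose) n).2, hn0,
            lt_of_lt_of_le hn1 (Nat.pow_le_pow_right (by norm_num) (Nat.sub_le _ _)), ?_⟩
          intro γ hγ l hl hx'
          rcases lt_or_eq_of_le (hmax γ hγ) with hlt | heq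
          · obtain ⟨h3, h4⟩ := hn2 γ hγ hlt
            rw [← h3, ← hl]
            exact (Nat.mod_mod_of_dvd l (Nat.pow_dvd_pow 2 (by omega))).symm
          · have : γ = m := heq
            rw [this]
            exact hl
        · rw [Finset.not_nonempty_iff_eq_empty] at hSg
          exact Filter.Eventually.of_forall fun n => ⟨0, 0, by simp, by simp, by rw [hSg]; simp⟩
      · exact Filter.Eventually.of_forall fun n =>
          ⟨0, 0, by simp, by simp, fun _ _ _ _ hx' => absurd hx' hx⟩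
    filter_upwards [hA, hB, hgr.large δ 10] with n hnA hnB hn10
    obtain ⟨K, hK1, hK2⟩ := hnA
    obtain ⟨r, L, hr, hL, hrL⟩ := hnB
    obtain ⟨l, hl1, hl2, hl3⟩ := fresh K (i δ n) r L (by omega) hn10 hr hL
    refine ⟨(K, l), ?_⟩
    intro j hj
    match j, hj with
    | none, _ => exact ⟨hl1, hl2⟩
    | some (Sum.inl k), hj =>
      have hk : k ≤ k0 := by
        have : k ∈ Sk := Finset.mem_preimage.2 hj
        exact Finset.le_sup (f := id) this
      show K.card + k ≤ i δ n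
      omega
    | some (Sum.inr (Sum.inl b)), hj =>
      exact hK2 b (Finset.mem_preimage.2 hj)
    | some (Sum.inr (Sum.inr γ)), hj =>
      exact hrL γ (Finset.mem_preimage.2 hj) l hl3)
  refine ⟨v, ?_, ?_, ?_, ?_, ?_⟩
  · filter_upwards [hv none] with n hn using hn.1
  · intro k
    exact hv (some (Sum.inl k))
  · intro b hb
    exact hv (some (Sum.inr (Sum.inl ⟨b, hb⟩)))
  · filter_upwards [hv none] with n hn using hn.2
  · intro γ hγ x hx
    filter_upwards [hv (some (Sum.inr (Sum.inr ⟨γ, hγ⟩)))] with n hn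
    have h1 := hn ⟨x, hx⟩
    have h2 : ν δ (Exists.choose (⟨x, hx⟩ : ∃ x, ν δ x = a)) = a :=
      Exists.choose_spec (⟨x, hx⟩ : ∃ x, ν δ x = a)
    rw [hCoh γ δ x _ hγ.le (hx.trans h2.symm)]
    exact h1

end

/-- **I4.** -/
theorem labels : ST_labels := by
  intro U hU X ν hCoh i hgr
  have hne : Nonempty (CI → ℕ → Finset ℕ × ℕ) := ⟨fun _ _ => (∅, 0)⟩
  have hne' : Nonempty (ℕ → Finset ℕ × ℕ) := ⟨fun _ => (∅, 0)⟩
  obtain ⟨w, hw⟩ := Pool.Agent.H32.PP.wf_rec (ι := CI) (X := CI → ℕ → Finset ℕ × ℕ) (· < ·)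
    wellFounded_lt
    (fun δ g w => ∀ a, Cond U ν i δ g a (fun b _ => w b) (w a)) (by
      intro δ g hg
      exact Pool.Agent.H32.PP.wf_rec (ι := CI) (X := ℕ → Finset ℕ × ℕ) (· < ·)
        wellFounded_lt (fun a f v => Cond U ν i δ (fun c _ => g c) a f v)
        (fun a f hf => inner U ν i hU hCoh hgr δ g hg a f hf))
  refine ⟨fun δ a n => (w δ a n).2, fun δ a n => (w δ a n).1, ?_, ?_, ?_, ?_, ?_⟩
  · intro δ a; exact (hw δ a).1
  · intro δ a k; exact (hw δ a).2.1 k
  · intro δ a b hab; exact (hw δ b).2.2.1 a hab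
  · intro δ a; exact (hw δ a).2.2.2.1
  · intro γ δ x hγδ; exact (hw δ (ν δ x)).2.2.2.2 γ hγδ x rfl

end Pool.Agent.Helper22.PP
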